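import Pool.Agent.R790.Ssi.Defs

/-! Vertex transitive sub scale invariant graphs have volume doubling. -/

set_option autoImplicit false

namespace Pool.Agent.R790.Ssi

open Filter Topology

/-- `G` has volume doubling. -/
def VolumeDoubling {V : Type} (G : SimpleGraph V) : Prop :=
  ∃ C : ℝ, 0 < C ∧ ∀ (v : V) (r : ℝ), 0 < r →
    ({w | (G.dist v w : ℝ) ≤ 2 * r}.ncard : ℝ) ≤ C * ({w | (G.dist v w : ℝ) ≤ r}.ncard : ℝ)

/-- vertices pairwise at distance at least `k` -/
def Sepd {V : Type} (G : SimpleGraph V) (k : ℕ) (S : Set V) : Prop :=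
  ∀ u ∈ S, ∀ v ∈ S, u ≠ v → k ≤ G.dist u v

theorem exists_ext {V : Type} (G : SimpleGraph V) (k : ℕ) (hk : 1 ≤ k) (B S0 : Set V)
    (hB : B.Finite) (h0 : S0 ⊆ B) (h1 : Sepd G k S0) :
    ∃ S, S0 ⊆ S ∧ S ⊆ B ∧ Sepd G k S ∧ ∀ w ∈ B, ∃ u ∈ S, G.dist w u < k := by
  have hfin : {S | S ⊆ B ∧ Sepd G k S}.Finite := hB.finite_subsets.subset fun S hS => hS.1
  obtain ⟨S, hS1, hS2⟩ := hfin.exists_le_maximal (a := S0) ⟨h0, h1⟩
  refine ⟨S, hS1, hS2.1.1, hS2.1.2, ?_⟩
  intro w hw
  by_contra hcon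
  push Not at hcon
  have hwS : w ∉ S := by
    intro h
    have := hcon w h
    simp at this
    omega
  have h3 := hS2.2 (y := insert w S) ⟨Set.insert_subset hw hS2.1.1, ?_⟩ (Set.subset_insert _ _)
  · exact hwS (h3 (Set.mem_insert _ _))
  · intro u hu v hv huv
    rcases hu with rfl | hu
    · rcases hv with rfl | hv
      · exact absurd rfl huv
      · exact hcon v hv
    · rcases hv with rfl | hv
      · rw [G.dist_comm]; exact hcon u hu
      · exact hS2.1.2 u hu v hv huv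

/-- nets which are chosen greedily from a root -/
theorem exists_rooted {V : Type} (G : SimpleGraph V) (o : V)
    (hball : ∀ n : ℕ, {w | G.dist o w ≤ n}.Finite) (hc : G.Connected) (k : ℕ) (hk : 1 ≤ k) :
    ∃ N : Set V, IsNet G k N ∧ o ∈ N ∧
      ∀ w, ∃ u ∈ N, G.dist w u < k ∧ G.dist o u ≤ G.dist o w := by
  have hstep : ∀ n : ℕ, ∀ S : Set V, (S ⊆ {w | G.dist o w ≤ n} ∧ Sepd G k S) → ∃ S', S ⊆ S' ∧
      (S' ⊆ {w | G.dist o w ≤ (n + 1 : ℕ)} ∧ Sepd G k S') ∧
      ∀ w, G.dist o w ≤ n + 1 → ∃ u ∈ S', G.dist w u < k := by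
    intro n S hS
    obtain ⟨S', h1, h2, h3, h4⟩ := exists_ext G k hk {w | G.dist o w ≤ (n + 1 : ℕ)} S
      (hball (n + 1)) (fun w hw => (hS.1 hw).trans (Nat.le_succ n)) hS.2
    exact ⟨S', h1, ⟨h2, h3⟩, h4⟩
  choose! F hF1 hF2 hF3 using hstep
  obtain ⟨T, hT0, hTS⟩ : ∃ T : ℕ → Set V, T 0 = {o} ∧ ∀ n, T (n + 1) = F n (T n) :=
    ⟨fun n => Nat.rec (motive := fun _ => Set V) {o} (fun n S => F n S) n, rfl, fun _ => rfl⟩
  have hT : ∀ n, T n ⊆ {w | G.dist o w ≤ n} ∧ Sepd G k (T n) := by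
    intro n
    induction n with
    | zero =>
      rw [hT0]
      refine ⟨?_, ?_⟩
      · rintro w rfl
        simp
      · rintro u rfl v rfl huv
        exact absurd rfl huv
    | succ n ih =>
      rw [hTS]
      exact hF2 n _ ih
  have hmono : Monotone T := by
    apply monotone_nat_of_le_succ
    intro n
    rw [hTS]
    exact hF1 n _ (hT n)
  have hoN : o ∈ ⋃ n, T n := Set.mem_iUnion.2 ⟨0, by rw [hT0]; rfl⟩
  have hcov : ∀ w, ∃ u ∈ ⋃ n, T n, G.dist w u < k ∧ G.dist o u ≤ G.dist o w := by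
    intro w
    rcases h : G.dist o w with _ | n
    · have : o = w := (hc.dist_eq_zero_iff).1 h
      refine ⟨o, hoN, ?_, by simp⟩
      rw [← this]
      simp
      omega
    · obtain ⟨u, hu1, hu2⟩ := hF3 n (T n) (hT n) w (by omega)
      rw [← hTS] at hu1
      exact ⟨u, Set.mem_iUnion.2 ⟨_, hu1⟩, hu2, (hT (n + 1)).1 hu1⟩
  refine ⟨⋃ n, T n, ⟨?_, ?_⟩, hoN, hcov⟩
  · intro u hu v hv huv
    obtain ⟨i, hi⟩ := Set.mem_iUnion.1 hu
    obtain ⟨j, hj⟩ := Set.mem_iUnion.1 hv
    exact (hT (max i j)).2 u (hmono (le_max_left i j) hi) v (hmono (le_max_right i j) hj) huv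
  · intro N' hN' hsub w hw
    obtain ⟨u, hu1, hu2, _⟩ := hcov w
    by_cases h : w = u
    · rw [h]; exact hu1
    · have := hN' w hw u (hsub hu1) h
      omega

section

variable {V : Type} {G : SimpleGraph V} (hc : G.Connected) {k : ℕ} (hk : 1 ≤ k) {N : Set V}
  {o : V} (hoN : o ∈ N) (hcov : ∀ w, ∃ u ∈ N, G.dist w u < k ∧ G.dist o u ≤ G.dist o w)
include hc hk hoN hcov

theorem rooted_walk (hN : IsNet G k N) (r : ℕ) (v : N) (hv : G.dist o v ≤ k * r) :
    ∃ p : (netGraph G k N).Walk ⟨o, hoN⟩ v, p.length ≤ r := by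
  induction r generalizing v with
  | zero =>
    have h0 : G.dist o v = 0 := by omega
    have h1 : o = v := (hc.dist_eq_zero_iff).1 h0
    have h2 : (⟨o, hoN⟩ : N) = v := Subtype.ext h1
    subst h2
    exact ⟨SimpleGraph.Walk.nil, le_rfl⟩
  | succ r ih =>
    by_cases hsmall : G.dist o v < k
    · have h1 : o = v := by
        by_contra h
        have := hN.1 o hoN v v.2 h
        omega
      have h2 : (⟨o, hoN⟩ : N) = v := Subtype.ext h1
      subst h2
      exact ⟨SimpleGraph.Walk.nil, Nat.zero_le _⟩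
    · push Not at hsmall
      obtain ⟨p, hp⟩ := hc.exists_walk_length_eq_dist o v
      set w := p.getVert (G.dist o v - k) with hw
      have hw1 : G.dist o w ≤ G.dist o v - k := by
        have h1 := SimpleGraph.dist_le (p.take (G.dist o v - k))
        rw [SimpleGraph.Walk.take_length] at h1
        exact h1.trans (min_le_left _ _)
      have hw2 : G.dist w v ≤ k := by
        have h1 : G.dist w v ≤ (p.drop (G.dist o v - k)).length := SimpleGraph.dist_le _
        rw [SimpleGraph.Walk.drop_length, hp] at h1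
        omega
      obtain ⟨u, hu1, hu2, hu3⟩ := hcov w
      have h3 : k * (r + 1) = k * r + k := by ring
      obtain ⟨q, hq⟩ := ih ⟨u, hu1⟩ (by
        show G.dist o u ≤ k * r
        omega)
      by_cases huv : (⟨u, hu1⟩ : N) = v
      · subst huv
        exact ⟨q, by omega⟩
      · have hadj : (netGraph G k N).Adj ⟨u, hu1⟩ v := by
          show 0 < G.dist u v ∧ G.dist u v ≤ 2 * k
          constructor
          · apply hc.pos_dist_of_ne
            intro h
            exact huv (Subtype.ext h)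
          · have := hc.dist_triangle (u := u) (v := w) (w := v)
            rw [G.dist_comm (u := u) (v := w)] at this
            omega
        exact ⟨q.concat hadj, by rw [SimpleGraph.Walk.length_concat]; omega⟩

theorem rooted_conn (hN : IsNet G k N) : (netGraph G k N).Connected := by
  have h1 : ∀ y, (netGraph G k N).Reachable ⟨o, hoN⟩ y := by
    intro y
    obtain ⟨p, _⟩ := rooted_walk hc hk hoN hcov hN (G.dist o y) y (by nlinarith)
    exact ⟨p⟩
  have : Nonempty N := ⟨⟨o, hoN⟩⟩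
  exact ⟨fun x y => (h1 x).symm.trans (h1 y)⟩

omit hk hoN hcov in
theorem walk_dist {x y : N} (p : (netGraph G k N).Walk x y) : G.dist x y ≤ 2 * k * p.length := by
  induction p with
  | nil => simp
  | @cons u v w h p ih =>
    rw [SimpleGraph.Walk.length_cons]
    have h1 := hc.dist_triangle (u := (u : V)) (v := v) (w := w)
    have h2 : G.dist u v ≤ 2 * k := h.2
    have h3 : 2 * k * (p.length + 1) = 2 * k * p.length + 2 * k := by ring
    omega

/-- the main estimate -/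
theorem main_estimate (hN : IsNet G k N) {vol : ℕ → ℕ}
    (hfin : ∀ v, ∀ n : ℕ, {w | G.dist v w ≤ n}.Finite)
    (hvol : ∀ v, ∀ n : ℕ, {w | G.dist v w ≤ n}.ncard = vol n)
    {C : ℝ} (hC0 : 0 < C) (hC : C < 2) (f : V → N) (hf : RoughIsom C G (netGraph G k N) f)
    (r : ℕ) : vol (k * r) ≤ vol (2 * r + 6) * vol (5 * k) := by
  classical
  set H := netGraph G k N with hH
  have hconn : H.Connected := rooted_conn hc hk hoN hcov hN
  -- a separated set
  obtain ⟨T, _, hT1, hT2, hT3⟩ := exists_ext G (4 * k + 1) (by omega)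
    (N ∩ {w | G.dist o w ≤ k * r}) ∅ ((hfin o (k * r)).subset Set.inter_subset_right)
    (Set.empty_subset _) (by intro u hu; exact absurd hu (Set.notMem_empty u))
  have hTfin : T.Finite := ((hfin o (k * r)).subset Set.inter_subset_right).subset hT1
  have hcov2 : ∀ y : N, ∃ x, H.dist (f x) y ≤ 1 := by
    intro y
    obtain ⟨x, hx⟩ := hf.2 y
    refine ⟨x, ?_⟩
    have h1 : (H.dist (f x) y : ℝ) < 2 := hx.trans hC
    have h2 : H.dist (f x) y < 2 := by exact_mod_cast h1
    omega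
  choose g hg using hcov2
  have hcard : T.ncard ≤ vol (2 * r + 6) := by
    rw [← hvol (g ⟨o, hoN⟩) (2 * r + 6)]
    let φ : V → V := fun y => if hy : y ∈ N then g ⟨y, hy⟩ else y
    refine Set.ncard_le_ncard_of_injOn φ ?_ ?_ (hfin _ _)
    · intro y hy
      have hyN : y ∈ N := (hT1 hy).1
      simp only [φ, dif_pos hyN]
      show G.dist _ _ ≤ _
      have h1 := (hf.1 (g ⟨o, hoN⟩) (g ⟨y, hyN⟩)).2
      have h2 : H.dist (f (g ⟨o, hoN⟩)) (f (g ⟨y, hyN⟩)) ≤ r + 2 := by
        have h3 := hg ⟨o, hoN⟩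
        have h4 := hg ⟨y, hyN⟩
        obtain ⟨p, hp⟩ := rooted_walk hc hk hoN hcov hN r ⟨y, hyN⟩ (hT1 hy).2
        have h5 : H.dist ⟨o, hoN⟩ ⟨y, hyN⟩ ≤ p.length := SimpleGraph.dist_le p
        have h6 := hconn.dist_triangle (u := f (g ⟨o, hoN⟩)) (v := ⟨o, hoN⟩)
          (w := f (g ⟨y, hyN⟩))
        have h7 := hconn.dist_triangle (u := (⟨o, hoN⟩ : N)) (v := ⟨y, hyN⟩)
          (w := f (g ⟨y, hyN⟩))
        rw [H.dist_comm (u := (⟨y, hyN⟩ : N)) (v := f (g ⟨y, hyN⟩))] at h7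
        omega
      have h3 : (H.dist (f (g ⟨o, hoN⟩)) (f (g ⟨y, hyN⟩)) : ℝ) ≤ r + 2 := by exact_mod_cast h2
      have h4 : (G.dist (g ⟨o, hoN⟩) (g ⟨y, hyN⟩) : ℝ) ≤ 2 * r + 6 := by
        have h5 : (0 : ℝ) ≤ H.dist (f (g ⟨o, hoN⟩)) (f (g ⟨y, hyN⟩)) := Nat.cast_nonneg _
        nlinarith
      exact_mod_cast h4
    · intro y hy y' hy' heq
      have hyN : y ∈ N := (hT1 hy).1
      have hyN' : y' ∈ N := (hT1 hy').1
      simp only [φ, dif_pos hyN, dif_pos hyN'] at heq
      by_contra hne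
      have h1 := hT2 y hy y' hy' hne
      have h3 := hg ⟨y, hyN⟩
      have h4 := hg ⟨y', hyN'⟩
      rw [← heq] at h4
      have h5 := hconn.dist_triangle (u := (⟨y, hyN⟩ : N)) (v := f (g ⟨y, hyN⟩))
        (w := ⟨y', hyN'⟩)
      rw [H.dist_comm (u := (⟨y, hyN⟩ : N)) (v := f (g ⟨y, hyN⟩))] at h5
      obtain ⟨p, hp⟩ := hconn.exists_walk_length_eq_dist (⟨y, hyN⟩ : N) ⟨y', hyN'⟩
      have h6 : G.dist y y' ≤ 2 * k * p.length := walk_dist hc p
      have h7 : 2 * k * p.length ≤ 2 * k * 2 := Nat.mul_le_mul_left _ (by omega)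
      omega
  -- the covering
  have hsub : {w | G.dist o w ≤ k * r} ⊆ ⋃ t ∈ hTfin.toFinset, {w | G.dist t w ≤ 5 * k} := by
    intro w hw
    have hw' : G.dist o w ≤ k * r := hw
    obtain ⟨u, hu1, hu2, hu3⟩ := hcov w
    obtain ⟨t, ht1, ht2⟩ := hT3 u ⟨hu1, hu3.trans hw'⟩
    simp only [Set.mem_iUnion]
    refine ⟨t, by simpa using ht1, ?_⟩
    show G.dist t w ≤ 5 * k
    have := hc.dist_triangle (u := t) (v := u) (w := w)
    rw [G.dist_comm (u := t) (v := u), G.dist_comm (u := u) (v := w)] at this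
    omega
  have h1 := Set.ncard_le_ncard hsub (Set.Finite.biUnion (Finset.finite_toSet _)
    (fun t _ => hfin t _))
  rw [hvol] at h1
  have h2 : (⋃ t ∈ hTfin.toFinset, {w | G.dist t w ≤ 5 * k}).ncard ≤
      ∑ t ∈ hTfin.toFinset, {w | G.dist t w ≤ 5 * k}.ncard :=
    Finset.set_ncard_biUnion_le _ _
  have h3 : ∑ t ∈ hTfin.toFinset, {w | G.dist t w ≤ 5 * k}.ncard = T.ncard * vol (5 * k) := by
    simp only [hvol]
    rw [Finset.sum_const, smul_eq_mul, Set.ncard_eq_toFinset_card T hTfin]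
  calc vol (k * r) ≤ _ := h1
    _ ≤ _ := h2
    _ = T.ncard * vol (5 * k) := h3
    _ ≤ _ := Nat.mul_le_mul_right _ hcard

end

theorem ball_fin {V : Type} {G : SimpleGraph V} (hc : G.Connected)
    (hlf : ∀ v, (G.neighborSet v).Finite) (v : V) (n : ℕ) : {w | G.dist v w ≤ n}.Finite := by
  induction n with
  | zero =>
    refine (Set.finite_singleton v).subset ?_
    intro w hw
    have h0 : G.dist v w = 0 := Nat.le_zero.1 hw
    exact ((hc.dist_eq_zero_iff).1 h0).symm
  | succ n ih =>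
    refine (ih.union (ih.biUnion (fun u _ => hlf u))).subset ?_
    intro w hw
    have hw' : G.dist v w ≤ n + 1 := hw
    rcases Nat.lt_or_ge (G.dist v w) (n + 1) with h | h
    · exact Or.inl (Nat.lt_succ_iff.1 h)
    · right
      obtain ⟨p, hp⟩ := hc.exists_walk_length_eq_dist v w
      have hlen : p.length = n + 1 := by omega
      simp only [Set.mem_iUnion]
      refine ⟨p.getVert n, ?_, ?_⟩
      · have h1 := SimpleGraph.dist_le (p.take n)
        rw [SimpleGraph.Walk.take_length] at h1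
        exact h1.trans (min_le_left _ _)
      · have h1 := p.adj_getVert_succ (i := n) (by omega)
        rw [← hlen, SimpleGraph.Walk.getVert_length] at h1
        exact h1

theorem iso_dist {V : Type} {G : SimpleGraph V} (hc : G.Connected) (f : G ≃g G) (x y : V) :
    G.dist (f x) (f y) = G.dist x y := by
  have key : ∀ (f : G ≃g G) (x y : V), G.dist (f x) (f y) ≤ G.dist x y := by
    intro f x y
    obtain ⟨p, hp⟩ := hc.exists_walk_length_eq_dist x y
    have h1 := SimpleGraph.dist_le (p.map f.toHom)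
    rw [SimpleGraph.Walk.length_map, hp] at h1
    exact h1
  apply le_antisymm (key f x y)
  have := key f.symm (f x) (f y)
  simpa using this

theorem doubling {V : Type} {G : SimpleGraph V} (hc : G.Connected)
    (hlf : ∀ v, (G.neighborSet v).Finite) (ht : VertexTransitive G)
    (hs : SubScaleInvariant G) : VolumeDoubling G := by
  classical
  obtain ⟨o⟩ := hc.nonempty
  let vol : ℕ → ℕ := fun n => {w | G.dist o w ≤ n}.ncard
  have hfin := ball_fin hc hlf
  have hvol : ∀ v, ∀ n : ℕ, {w | G.dist v w ≤ n}.ncard = vol n := by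
    intro v n
    obtain ⟨f, hf⟩ := ht o v
    have : {w | G.dist v w ≤ n} = f '' {w | G.dist o w ≤ n} := by
      ext w
      constructor
      · intro hw
        refine ⟨f.symm w, ?_, by simp⟩
        show G.dist o (f.symm w) ≤ n
        rw [← iso_dist hc f, hf]
        simpa using hw
      · rintro ⟨u, hu, rfl⟩
        show G.dist v (f u) ≤ n
        rw [← hf, iso_dist hc f]
        exact hu
    rw [this, Set.ncard_image_of_injective _ f.injective]
  have hmono : Monotone vol := by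
    intro m n hmn
    exact Set.ncard_le_ncard (fun w hw => le_trans hw hmn) (hfin o n)
  have hpos : ∀ n, 1 ≤ vol n := by
    intro n
    have : 0 < vol n := (Set.ncard_pos (hfin o n)).2 ⟨o, by simp⟩
    exact this
  -- nets
  have hnet : ∀ k : ℕ, ∃ N : Set V, 1 ≤ k → (IsNet G k N ∧ o ∈ N ∧
      ∀ w, ∃ u ∈ N, G.dist w u < k ∧ G.dist o u ≤ G.dist o w) := by
    intro k
    by_cases hk : 1 ≤ k
    · obtain ⟨N, hN⟩ := exists_rooted G o (hfin o) hc k hk
      exact ⟨N, fun _ => hN⟩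
    · exact ⟨∅, fun h => absurd h hk⟩
  choose N hN using hnet
  have hlim := hs N (fun k hk => (hN k hk).1)
  have hev : ∀ᶠ k in atTop, roughConst G k (N k) < 2 ∧ 1 / 2 < roughConst G k (N k) :=
    (hlim.eventually_lt_const (by norm_num)).and (hlim.eventually_const_lt (by norm_num))
  obtain ⟨k0, hk0⟩ := eventually_atTop.1 hev
  have hmain : ∀ k, k0 ≤ k → 1 ≤ k → vol (k * 11) ≤ vol 28 * vol (5 * k) := by
    intro k hk hk1
    obtain ⟨h1, h2⟩ := hk0 k hk
    have hne : {C : ℝ | 0 < C ∧ ∃ f : V → N k, RoughIsom C G (netGraph G k (N k)) f}.Nonempty := by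
      by_contra hcon
      rw [Set.not_nonempty_iff_eq_empty] at hcon
      unfold roughConst at h2
      rw [hcon, Real.sInf_empty] at h2
      linarith
    obtain ⟨C, ⟨hC0, f, hf⟩, hC⟩ := exists_lt_of_csInf_lt hne h1
    obtain ⟨hN1, hN2, hN3⟩ := hN k hk1
    exact main_estimate hc hk1 hN2 hN3 hN1 hfin hvol hC0 hC f hf 11
  set k1 := max k0 10 with hk1
  have hdouble : ∀ n, vol (2 * n + 1) ≤ (vol 28 + vol (10 * k1 + 1)) * vol n := by
    intro n
    rcases le_total n (5 * k1) with h | h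
    · calc vol (2 * n + 1) ≤ vol (10 * k1 + 1) := hmono (by omega)
        _ ≤ (vol 28 + vol (10 * k1 + 1)) * 1 := by omega
        _ ≤ _ := Nat.mul_le_mul_left _ (hpos n)
    · have hq : k1 ≤ n / 5 := by omega
      have h1 := hmain (n / 5) (by omega) (by omega)
      calc vol (2 * n + 1) ≤ vol (n / 5 * 11) := hmono (by omega)
        _ ≤ vol 28 * vol (5 * (n / 5)) := h1
        _ ≤ vol 28 * vol n := Nat.mul_le_mul_left _ (hmono (by omega))
        _ ≤ _ := Nat.mul_le_mul_right _ (by omega)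
  refine ⟨(vol 28 + vol (10 * k1 + 1) : ℕ), ?_, ?_⟩
  · have := hpos 28
    exact_mod_cast (by omega : 0 < vol 28 + vol (10 * k1 + 1))
  · intro v r hr
    have h1 : {w | (G.dist v w : ℝ) ≤ r} = {w | G.dist v w ≤ ⌊r⌋₊} := by
      ext w
      exact (Nat.le_floor_iff hr.le).symm
    have h2 : {w | (G.dist v w : ℝ) ≤ 2 * r} = {w | G.dist v w ≤ ⌊2 * r⌋₊} := by
      ext w
      exact (Nat.le_floor_iff (show (0 : ℝ) ≤ 2 * r by linarith)).symm
    rw [h1, h2, hvol, hvol]
    have h3 : ⌊2 * r⌋₊ ≤ 2 * ⌊r⌋₊ + 1 := by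
      have h4 : r < ⌊r⌋₊ + 1 := Nat.lt_floor_add_one r
      have h5 : (⌊2 * r⌋₊ : ℝ) ≤ 2 * r := Nat.floor_le (by linarith)
      have h6 : (⌊2 * r⌋₊ : ℝ) < 2 * ⌊r⌋₊ + 2 := by linarith
      have h7 : ⌊2 * r⌋₊ < 2 * ⌊r⌋₊ + 2 := by exact_mod_cast h6
      omega
    have h4 := (hmono h3).trans (hdouble ⌊r⌋₊)
    exact_mod_cast h4

end Pool.Agent.R790.Ssi
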