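import Mathlib

/-! Net graphs, rough isometries and sub scale invariance. -/

set_option autoImplicit false

namespace Pool.Agent.R790.Ssi

open Filter Topology

/-- `N` is a `k`-net: a vertex set, maximal under inclusion, with `k ≤ d(u, v)` for all distinct
`u, v` in `N`. -/
def IsNet {V : Type} (G : SimpleGraph V) (k : ℕ) (N : Set V) : Prop :=
  Maximal (fun N : Set V => ∀ u ∈ N, ∀ v ∈ N, u ≠ v → k ≤ G.dist u v) N

/-- The `k`-net graph on `N`: `u` and `v` are adjacent iff `0 < d(u, v) ≤ 2 k`. -/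
def netGraph {V : Type} (G : SimpleGraph V) (k : ℕ) (N : Set V) : SimpleGraph N where
  Adj u v := 0 < G.dist u v ∧ G.dist u v ≤ 2 * k
  symm := ⟨fun u v h => by rw [G.dist_comm]; exact h⟩
  loopless := ⟨fun u h => by simp at h⟩

/-- `f` is a `C`-rough isometry between the vertex sets of `G` and `H`. -/
def RoughIsom {V W : Type} (C : ℝ) (G : SimpleGraph V) (H : SimpleGraph W) (f : V → W) : Prop :=
  (∀ x y, C⁻¹ * (H.dist (f x) (f y) : ℝ) - C ≤ (G.dist x y : ℝ) ∧
    (G.dist x y : ℝ) ≤ C * (H.dist (f x) (f y) : ℝ) + C) ∧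
  ∀ y, ∃ x, (H.dist (f x) y : ℝ) < C

/-- The infimum of the `C > 0` such that there is a `C`-rough isometry from `G` to its net graph
on the `k`-net `N`. -/
noncomputable def roughConst {V : Type} (G : SimpleGraph V) (k : ℕ) (N : Set V) : ℝ :=
  sInf {C : ℝ | 0 < C ∧ ∃ f : V → N, RoughIsom C G (netGraph G k N) f}

/-- `G` is sub scale invariant: for every choice of `k`-nets the constants tend to `1`. -/
def SubScaleInvariant {V : Type} (G : SimpleGraph V) : Prop :=
  ∀ N : ℕ → Set V, (∀ k, 1 ≤ k → IsNet G k (N k)) →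
    Tendsto (fun k => roughConst G k (N k)) atTop (𝓝 1)

/-- `G` is vertex transitive. -/
def VertexTransitive {V : Type} (G : SimpleGraph V) : Prop :=
  ∀ u v : V, ∃ f : G ≃g G, f u = v

/-- The bi-infinite path on the integers. -/
def zLine : SimpleGraph ℤ where
  Adj i j := j = i + 1 ∨ i = j + 1
  symm := ⟨fun _ _ h => h.symm⟩
  loopless := ⟨fun _ h => by omega⟩

end Pool.Agent.R790.Ssi
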