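import Pool.Agent.R790.Ssi.Defs

/-! The bi-infinite path is sub scale invariant. -/

set_option autoImplicit false

namespace Pool.Agent.R790.Ssi

open Filter Topology

theorem zwalk (i : ℤ) (n : ℕ) : ∃ p : zLine.Walk i (i + n), p.length = n := by
  induction n with
  | zero => exact ⟨SimpleGraph.Walk.nil.copy rfl (by simp), by simp⟩
  | succ n ih =>
    obtain ⟨p, hp⟩ := ih
    have hadj : zLine.Adj (i + n) (i + (n + 1 : ℕ)) := Or.inl (by push_cast; ring)
    exact ⟨p.concat hadj, by rw [SimpleGraph.Walk.length_concat, hp]⟩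

theorem zconn : zLine.Connected := by
  refine ⟨fun i j => ?_⟩
  rcases le_total i j with h | h
  · obtain ⟨p, _⟩ := zwalk i (j - i).toNat
    have : i + ((j - i).toNat : ℤ) = j := by omega
    rw [this] at p
    exact ⟨p⟩
  · obtain ⟨p, _⟩ := zwalk j (i - j).toNat
    have : j + ((i - j).toNat : ℤ) = i := by omega
    rw [this] at p
    exact ⟨p.reverse⟩

theorem zwalk_ge {i j : ℤ} (p : zLine.Walk i j) : |i - j| ≤ p.length := by
  induction p with
  | nil => simp
  | @cons u v w h p ih =>
    rw [SimpleGraph.Walk.length_cons]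
    have h1 : |u - v| ≤ 1 := by
      rcases h with h | h
      · rw [h]; simp
      · rw [h]; simp
    have h2 := abs_sub_le u v w
    push_cast
    linarith

theorem zdist (i j : ℤ) : (zLine.dist i j : ℤ) = |i - j| := by
  apply le_antisymm
  · rcases le_total i j with h | h
    · obtain ⟨p, hp⟩ := zwalk i (j - i).toNat
      have h1 : i + ((j - i).toNat : ℤ) = j := by omega
      have h2 := SimpleGraph.dist_le (p.copy rfl h1)
      rw [SimpleGraph.Walk.length_copy, hp] at h2
      rw [abs_of_nonpos (by omega)]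
      omega
    · obtain ⟨p, hp⟩ := zwalk j (i - j).toNat
      have h1 : j + ((i - j).toNat : ℤ) = i := by omega
      have h2 := SimpleGraph.dist_le (p.copy rfl h1).reverse
      rw [SimpleGraph.Walk.length_reverse, SimpleGraph.Walk.length_copy, hp] at h2
      rw [abs_of_nonneg (by omega)]
      omega
  · obtain ⟨p, hp⟩ := zconn.exists_walk_length_eq_dist i j
    rw [← hp]
    exact zwalk_ge p

section net

variable {k : ℕ} (hk : 1 ≤ k) {N : Set ℤ} (hN : IsNet zLine k N)
include hk hN

theorem net_near (w : ℤ) : ∃ v ∈ N, |w - v| < k := by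
  by_contra hcon
  push Not at hcon
  have h1 : w ∉ N := by
    intro hw
    have := hcon w hw
    simp at this
    omega
  have h2 := hN.2 (y := insert w N) (by
    intro u hu v hv huv
    have key : ∀ v ∈ N, k ≤ zLine.dist w v := by
      intro v hv
      have h3 := hcon v hv
      rw [← zdist] at h3
      exact_mod_cast h3
    rcases hu with rfl | hu
    · rcases hv with rfl | hv
      · exact absurd rfl huv
      · exact key v hv
    · rcases hv with rfl | hv
      · rw [zLine.dist_comm]; exact key u hu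
      · exact hN.1 u hu v hv huv) (Set.subset_insert _ _)
  exact h1 (h2 (Set.mem_insert _ _))

theorem exists_J (u : ℤ) : ∃ v ∈ N, u < v ∧ v ≤ u + 2 * k ∧ ∀ w ∈ N, w ≤ u + 2 * k → w ≤ v := by
  obtain ⟨v0, hv0, h0⟩ := net_near hk hN (u + k)
  rw [abs_lt] at h0
  obtain ⟨v, ⟨h1, h2⟩, h3⟩ := Int.exists_greatest_of_bdd (P := fun z => z ∈ N ∧ z ≤ u + 2 * k)
    ⟨u + 2 * k, fun z hz => hz.2⟩ ⟨v0, hv0, by omega⟩
  refine ⟨v, h1, ?_, h2, fun w hw hw' => h3 w ⟨hw, hw'⟩⟩
  have := h3 v0 ⟨hv0, by omega⟩
  omega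

theorem exists_J' (u : ℤ) : ∃ v ∈ N, v < u ∧ u - 2 * k ≤ v ∧ ∀ w ∈ N, u - 2 * k ≤ w → v ≤ w := by
  obtain ⟨v0, hv0, h0⟩ := net_near hk hN (u - k)
  rw [abs_lt] at h0
  obtain ⟨v, ⟨h1, h2⟩, h3⟩ := Int.exists_least_of_bdd (P := fun z => z ∈ N ∧ u - 2 * k ≤ z)
    ⟨u - 2 * k, fun z hz => hz.2⟩ ⟨v0, hv0, by omega⟩
  refine ⟨v, h1, ?_, h2, fun w hw hw' => h3 w ⟨hw, hw'⟩⟩
  have := h3 v0 ⟨hv0, by omega⟩
  omega

omit hk hN in
theorem adj_iff (x y : N) : (netGraph zLine k N).Adj x y ↔
    (x : ℤ) ≠ y ∧ |(x : ℤ) - y| ≤ 2 * k := by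
  show 0 < zLine.dist _ _ ∧ zLine.dist _ _ ≤ 2 * k ↔ _
  have h := zdist x y
  constructor
  · rintro ⟨h1, h2⟩
    constructor
    · intro h3
      rw [h3, SimpleGraph.dist_self] at h1
      omega
    · rw [← h]; exact_mod_cast h2
  · rintro ⟨h1, h2⟩
    have h3 : 0 < |(x : ℤ) - y| := abs_pos.2 (sub_ne_zero.2 h1)
    rw [← h] at h2 h3
    exact ⟨by exact_mod_cast h3, by exact_mod_cast h2⟩

theorem exists_map : ∃ f : ℤ → N,
    (∀ x y, (netGraph zLine k N).dist (f x) (f y) ≤ zLine.dist x y ∧
      zLine.dist x y ≤ (netGraph zLine k N).dist (f x) (f y) + 1) ∧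
    ∀ y, ∃ x, (netGraph zLine k N).dist (f x) y ≤ 1 := by
  choose J hJ1 hJ2 hJ3 hJ4 using exists_J hk hN
  choose J' hJ'1 hJ'2 hJ'3 hJ'4 using exists_J' hk hN
  obtain ⟨o, ho, _⟩ := net_near hk hN 0
  set H := netGraph zLine k N with hH
  -- the two sequences
  obtain ⟨a, ha0', haS⟩ : ∃ a : ℕ → N, a 0 = ⟨o, ho⟩ ∧ ∀ n, (a (n + 1) : ℤ) = J (a n) :=
    ⟨fun n => Nat.rec (motive := fun _ => N) ⟨o, ho⟩ (fun _ u => ⟨J u, hJ1 u⟩) n, rfl,
      fun _ => rfl⟩
  obtain ⟨b, hb0', hbS⟩ : ∃ b : ℕ → N, b 0 = ⟨o, ho⟩ ∧ ∀ n, (b (n + 1) : ℤ) = J' (b n) :=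
    ⟨fun n => Nat.rec (motive := fun _ => N) ⟨o, ho⟩ (fun _ u => ⟨J' u, hJ'1 u⟩) n, rfl,
      fun _ => rfl⟩
  have ha0 : (a 0 : ℤ) = o := by rw [ha0']
  have hb0 : (b 0 : ℤ) = o := by rw [hb0']
  have hamono : StrictMono (fun n => (a n : ℤ)) := by
    apply strictMono_nat_of_lt_succ
    intro n
    simp only [haS]
    exact hJ2 _
  have hbmono : StrictAnti (fun n => (b n : ℤ)) := by
    apply strictAnti_nat_of_succ_lt
    intro n
    simp only [hbS]
    exact hJ'2 _
  have hadja : ∀ n, H.Adj (a n) (a (n + 1)) := by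
    intro n
    rw [hH, adj_iff, haS]
    have h1 := hJ2 (a n)
    have h2 := hJ3 (a n)
    exact ⟨by omega, by rw [abs_le]; constructor <;> omega⟩
  have hadjb : ∀ n, H.Adj (b n) (b (n + 1)) := by
    intro n
    rw [hH, adj_iff, hbS]
    have h1 := hJ'2 (b n)
    have h2 := hJ'3 (b n)
    exact ⟨by omega, by rw [abs_le]; constructor <;> omega⟩
  have hwa : ∀ i n, ∃ p : H.Walk (a i) (a (i + n)), p.length = n := by
    intro i n
    induction n with
    | zero => exact ⟨SimpleGraph.Walk.nil, rfl⟩
    | succ n ih =>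
      obtain ⟨p, hp⟩ := ih
      exact ⟨p.concat (hadja _), by rw [SimpleGraph.Walk.length_concat, hp]⟩
  have hwb : ∀ i n, ∃ p : H.Walk (b i) (b (i + n)), p.length = n := by
    intro i n
    induction n with
    | zero => exact ⟨SimpleGraph.Walk.nil, rfl⟩
    | succ n ih =>
      obtain ⟨p, hp⟩ := ih
      exact ⟨p.concat (hadjb _), by rw [SimpleGraph.Walk.length_concat, hp]⟩
  -- greedy bounds
  have hA : ∀ (x y : N) (p : H.Walk x y) (n : ℕ), (x : ℤ) ≤ a n → (y : ℤ) ≤ a (n + p.length) := by
    intro x y p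
    induction p with
    | nil => intro n h; exact h
    | @cons u v w h p ih =>
      intro n hn
      rw [SimpleGraph.Walk.length_cons, show n + (p.length + 1) = (n + 1) + p.length by ring]
      apply ih
      rw [haS]
      rw [hH, adj_iff] at h
      have h1 := abs_le.1 h.2
      apply hJ4 _ _ v.2
      omega
  have hB : ∀ (x y : N) (p : H.Walk x y) (n : ℕ), (b n : ℤ) ≤ x → (b (n + p.length) : ℤ) ≤ y := by
    intro x y p
    induction p with
    | nil => intro n h; exact h
    | @cons u v w h p ih =>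
      intro n hn
      rw [SimpleGraph.Walk.length_cons, show n + (p.length + 1) = (n + 1) + p.length by ring]
      apply ih
      rw [hbS]
      rw [hH, adj_iff] at h
      have h1 := abs_le.1 h.2
      apply hJ'4 _ _ v.2
      omega
  have hAB : ∀ (x y : N) (p : H.Walk x y), (x : ℤ) ≤ o → o < (y : ℤ) →
      ∃ t, t + 1 ≤ p.length ∧ (b (t + 1) : ℤ) ≤ x ∧ (y : ℤ) ≤ a (p.length - t) := by
    intro x y p
    induction p with
    | nil => intro h1 h2; omega
    | @cons u v w h p ih =>
      intro h1 h2
      have h' := h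
      rw [hH, adj_iff] at h'
      have h3 := abs_le.1 h'.2
      rw [SimpleGraph.Walk.length_cons]
      by_cases hv : (v : ℤ) ≤ o
      · obtain ⟨t, ht1, ht2, ht3⟩ := ih hv h2
        refine ⟨t + 1, by omega, ?_, ?_⟩
        · rw [hbS]
          apply hJ'4 _ _ u.2
          omega
        · rw [Nat.add_sub_add_right]
          exact ht3
      · refine ⟨0, by omega, ?_, ?_⟩
        · rw [hbS]
          apply hJ'4 _ _ u.2
          omega
        · have := hA u w (SimpleGraph.Walk.cons h p) 0 (by rw [ha0]; exact h1)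
          rw [SimpleGraph.Walk.length_cons, zero_add] at this
          exact this
  -- connectivity
  have hcov : ∀ y : N, (∃ n, H.dist (a n) y ≤ 1 ∧ H.Reachable (a n) y) ∨
      (∃ n, H.dist (b n) y ≤ 1 ∧ H.Reachable (b n) y) := by
    intro y
    rcases le_total o (y : ℤ) with h | h
    · left
      have hex : ∃ n, (y : ℤ) < a n := by
        refine ⟨((y : ℤ) - o).toNat + 1, ?_⟩
        have : ∀ n : ℕ, o + n ≤ a n := by
          intro n
          induction n with
          | zero => simp [ha0]
          | succ n ih =>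
            have := hamono (Nat.lt_add_one n)
            simp only at this
            push_cast
            omega
        have := this (((y : ℤ) - o).toNat + 1)
        push_cast at this
        omega
      classical
      have h1 := Nat.find_spec hex
      have h2 : Nat.find hex ≠ 0 := by
        intro h0
        rw [h0, ha0] at h1
        omega
      obtain ⟨n, hn⟩ := Nat.exists_eq_succ_of_ne_zero h2
      have h3 := Nat.find_min hex (m := n) (by omega)
      rw [hn, Nat.succ_eq_add_one, haS] at h1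
      push Not at h3
      refine ⟨n, ?_⟩
      by_cases heq : a n = y
      · rw [heq]; simp
      · have hadj : H.Adj (a n) y := by
          rw [hH, adj_iff]
          have h4 := hJ3 (a n)
          have h5 : (a n : ℤ) ≠ y := fun h => heq (Subtype.ext h)
          exact ⟨h5, by rw [abs_le]; constructor <;> omega⟩
        exact ⟨(SimpleGraph.dist_eq_one_iff_adj.2 hadj).le, hadj.reachable⟩
    · right
      have hex : ∃ n, (b n : ℤ) < y := by
        refine ⟨(o - (y : ℤ)).toNat + 1, ?_⟩
        have : ∀ n : ℕ, (b n : ℤ) ≤ o - n := by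
          intro n
          induction n with
          | zero => simp [hb0]
          | succ n ih =>
            have := hbmono (Nat.lt_add_one n)
            simp only at this
            push_cast
            omega
        have := this ((o - (y : ℤ)).toNat + 1)
        push_cast at this
        omega
      classical
      have h1 := Nat.find_spec hex
      have h2 : Nat.find hex ≠ 0 := by
        intro h0
        rw [h0, hb0] at h1
        omega
      obtain ⟨n, hn⟩ := Nat.exists_eq_succ_of_ne_zero h2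
      have h3 := Nat.find_min hex (m := n) (by omega)
      rw [hn, Nat.succ_eq_add_one, hbS] at h1
      push Not at h3
      refine ⟨n, ?_⟩
      by_cases heq : b n = y
      · rw [heq]; simp
      · have hadj : H.Adj (b n) y := by
          rw [hH, adj_iff]
          have h4 := hJ'3 (b n)
          have h5 : (b n : ℤ) ≠ y := fun h => heq (Subtype.ext h)
          exact ⟨h5, by rw [abs_le]; constructor <;> omega⟩
        exact ⟨(SimpleGraph.dist_eq_one_iff_adj.2 hadj).le, hadj.reachable⟩
  have hab0 : a 0 = b 0 := by rw [ha0', hb0']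
  have hra : ∀ n, H.Reachable (a 0) (a n) := by
    intro n
    obtain ⟨p, _⟩ := hwa 0 n
    rw [zero_add] at p
    exact ⟨p⟩
  have hrb : ∀ n, H.Reachable (a 0) (b n) := by
    intro n
    obtain ⟨p, _⟩ := hwb 0 n
    rw [zero_add, ← hab0] at p
    exact ⟨p⟩
  have hconn : H.Connected := by
    have h1 : ∀ y, H.Reachable (a 0) y := by
      intro y
      rcases hcov y with ⟨n, _, hn⟩ | ⟨n, _, hn⟩
      · exact (hra n).trans hn
      · exact (hrb n).trans hn
    have : Nonempty N := ⟨a 0⟩
    exact ⟨fun x y => (h1 x).symm.trans (h1 y)⟩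
  -- distances
  have hda : ∀ i n, H.dist (a i) (a (i + n)) = n := by
    intro i n
    apply le_antisymm
    · obtain ⟨p, hp⟩ := hwa i n
      have := SimpleGraph.dist_le p
      omega
    · obtain ⟨p, hp⟩ := hconn.exists_walk_length_eq_dist (a i) (a (i + n))
      have h1 := hA _ _ p i le_rfl
      have h2 := hamono.le_iff_le.1 h1
      omega
  have hdb : ∀ i n, H.dist (b i) (b (i + n)) = n := by
    intro i n
    apply le_antisymm
    · obtain ⟨p, hp⟩ := hwb i n
      have := SimpleGraph.dist_le p
      omega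
    · obtain ⟨p, hp⟩ := hconn.exists_walk_length_eq_dist (b i) (b (i + n))
      have h1 := hB _ _ p i le_rfl
      have h2 := hbmono.le_iff_ge.1 h1
      omega
  have hdab : ∀ i j, H.dist (b i) (a j) ≤ i + j ∧ i + j ≤ H.dist (b i) (a j) + 1 := by
    intro i j
    constructor
    · have h1 := hconn.dist_triangle (u := b i) (v := a 0) (w := a j)
      have h2 := hda 0 j
      have h3 := hdb 0 i
      rw [zero_add] at h2 h3
      rw [H.dist_comm (u := b i) (v := a 0), hab0, h3, ← hab0, h2] at h1
      exact h1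
    · rcases Nat.eq_zero_or_pos j with rfl | hj
      · have h3 := hdb 0 i
        rw [zero_add] at h3
        rw [hab0, H.dist_comm, h3]
        omega
      · obtain ⟨p, hp⟩ := hconn.exists_walk_length_eq_dist (b i) (a j)
        have h4 : (b i : ℤ) ≤ o := by
          rw [← hb0]
          exact hbmono.antitone (Nat.zero_le i)
        have h5 : o < (a j : ℤ) := by
          rw [← ha0]
          exact hamono hj
        obtain ⟨t, ht1, ht2, ht3⟩ := hAB _ _ p h4 h5
        have h6 := hbmono.le_iff_ge.1 ht2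
        have h7 := hamono.le_iff_le.1 ht3
        omega
  let f : ℤ → N := fun x => if 0 ≤ x then a x.toNat else b (-x).toNat
  have hfa : ∀ n : ℕ, f n = a n := by
    intro n
    simp only [f]
    rw [if_pos (by omega)]
    simp
  have hfb : ∀ n : ℕ, f (-(n : ℤ)) = b n := by
    intro n
    simp only [f]
    rcases Nat.eq_zero_or_pos n with rfl | hn
    · rw [if_pos (by simp)]
      simp only [Nat.cast_zero, neg_zero, Int.toNat_zero]
      exact hab0
    · rw [if_neg (by omega)]
      simp
  refine ⟨f, ?_, ?_⟩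
  · have key : ∀ x y : ℤ, x ≤ y → H.dist (f x) (f y) ≤ zLine.dist x y ∧
        zLine.dist x y ≤ H.dist (f x) (f y) + 1 := by
      intro x y hxy
      have h1 := zdist x y
      rw [abs_of_nonpos (by omega)] at h1
      rcases le_total 0 x with hx | hx
      · obtain ⟨i, rfl⟩ := Int.eq_ofNat_of_zero_le hx
        obtain ⟨n, hn⟩ := Int.eq_ofNat_of_zero_le (show 0 ≤ y - (i : ℤ) by omega)
        have hy : y = ((i + n : ℕ) : ℤ) := by push_cast; omega
        subst hy
        rw [hfa, hfa, hda]
        omega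
      · rcases le_total y 0 with hy | hy
        · obtain ⟨i, hi⟩ := Int.eq_ofNat_of_zero_le (show 0 ≤ -y by omega)
          obtain ⟨n, hn⟩ := Int.eq_ofNat_of_zero_le (show 0 ≤ y - x by omega)
          have hy : y = -(i : ℤ) := by omega
          have hx : x = -((i + n : ℕ) : ℤ) := by push_cast; omega
          rw [hy, hx, hfb, hfb, H.dist_comm, hdb, ← hy, ← hx]
          omega
        · obtain ⟨i, hi⟩ := Int.eq_ofNat_of_zero_le (show 0 ≤ -x by omega)
          obtain ⟨j, hj⟩ := Int.eq_ofNat_of_zero_le hy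
          have hx : x = -(i : ℤ) := by omega
          have h2 := hdab i j
          rw [hx, hj, hfb, hfa, ← hx, ← hj]
          omega
    intro x y
    rcases le_total x y with h | h
    · exact key x y h
    · have := key y x h
      rw [H.dist_comm, zLine.dist_comm]
      exact this
  · intro y
    rcases hcov y with ⟨n, hn, _⟩ | ⟨n, hn, _⟩
    · exact ⟨n, by rw [hfa]; exact hn⟩
    · exact ⟨-(n : ℤ), by rw [hfb]; exact hn⟩

theorem roughConst_line : roughConst zLine k N = 1 := by
  obtain ⟨f, hf1, hf2⟩ := exists_map hk hN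
  have hmem : ∀ C : ℝ, 1 < C → C ∈ {C : ℝ | 0 < C ∧ ∃ f : ℤ → N,
      RoughIsom C zLine (netGraph zLine k N) f} := by
    intro C hC
    have hC0 : 0 < C := by linarith
    refine ⟨hC0, f, ?_, ?_⟩
    · intro x y
      obtain ⟨h1, h2⟩ := hf1 x y
      have h3 : ((netGraph zLine k N).dist (f x) (f y) : ℝ) ≤ zLine.dist x y := by
        exact_mod_cast h1
      have h4 : (zLine.dist x y : ℝ) ≤ (netGraph zLine k N).dist (f x) (f y) + 1 := by
        exact_mod_cast h2
      have h5 : (0 : ℝ) ≤ (netGraph zLine k N).dist (f x) (f y) := Nat.cast_nonneg _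
      constructor
      · have h6 : C⁻¹ * ((netGraph zLine k N).dist (f x) (f y) : ℝ) ≤
            1 * ((netGraph zLine k N).dist (f x) (f y) : ℝ) :=
          mul_le_mul_of_nonneg_right (inv_le_one_of_one_le₀ hC.le) h5
        linarith
      · nlinarith
    · intro y
      obtain ⟨x, hx⟩ := hf2 y
      refine ⟨x, ?_⟩
      have : ((netGraph zLine k N).dist (f x) y : ℝ) ≤ 1 := by exact_mod_cast hx
      linarith
  have hlow : ∀ C ∈ {C : ℝ | 0 < C ∧ ∃ f : ℤ → N,
      RoughIsom C zLine (netGraph zLine k N) f}, 1 ≤ C := by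
    rintro C ⟨hC0, g, hg1, _⟩
    by_contra hC1
    push Not at hC1
    obtain ⟨n, hn⟩ := exists_nat_gt ((C + C ^ 3) / (1 - C ^ 2))
    have h0 : 0 < 1 - C ^ 2 := by nlinarith
    rw [div_lt_iff₀ h0] at hn
    obtain ⟨h1, h2⟩ := hg1 0 n
    have h3 : (zLine.dist 0 (n : ℤ) : ℤ) = n := by
      rw [zdist]; simp
    have h4 : (zLine.dist 0 (n : ℤ) : ℝ) = n := by exact_mod_cast h3
    rw [h4] at h1 h2
    set D : ℝ := ((netGraph zLine k N).dist (g 0) (g n) : ℝ) with hD
    have h5 : D ≤ C * (n + C) := by
      have : C * (C⁻¹ * D - C) ≤ C * n := mul_le_mul_of_nonneg_left h1 hC0.le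
      have h6 : C * (C⁻¹ * D - C) = D - C * C := by
        rw [mul_sub, ← mul_assoc, mul_inv_cancel₀ hC0.ne', one_mul]
      rw [h6] at this
      nlinarith
    have h6 : (n : ℝ) ≤ C * (C * (n + C)) + C := by
      have := mul_le_mul_of_nonneg_left h5 hC0.le
      linarith
    nlinarith
  apply le_antisymm
  · apply le_of_forall_gt_imp_ge_of_dense
    intro C hC
    exact csInf_le ⟨1, hlow⟩ (hmem C hC)
  · exact le_csInf ⟨2, hmem 2 (by norm_num)⟩ hlow

end net

theorem line_ssi : SubScaleInvariant zLine := by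
  intro N hN
  apply tendsto_const_nhds.congr'
  filter_upwards [eventually_ge_atTop 1] with k hk
  exact (roughConst_line hk (hN k hk)).symm

theorem line_trans : VertexTransitive zLine := by
  intro u v
  refine ⟨{ toFun := fun x => x + (v - u), invFun := fun x => x - (v - u), left_inv := ?_,
            right_inv := ?_, map_rel_iff' := ?_ }, ?_⟩
  · intro x; simp
  · intro x; simp
  · intro x y
    show (_ ∨ _) ↔ (_ ∨ _)
    simp only [Equiv.coe_fn_mk]
    omega
  · show u + (v - u) = v
    ring

theorem line_lf (v : ℤ) : (zLine.neighborSet v).Finite := by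
  refine Set.Finite.subset (Set.toFinite {v + 1, v - 1}) ?_
  intro w hw
  rcases hw with h | h
  · left; exact h
  · right; show w = v - 1; omega

end Pool.Agent.R790.Ssi
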